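import Mathlib

/-!
# Arithmetic of the thresholds
-/

namespace Pool.Agent.H77.NB

lemma ar_sq (w k n P : ℕ) : (w + k + n + P + 2) ^ 2 = (w + k + n + P) * (w + k + n + P)
    + 4 * (w + k + n + P) + 4 := by ring

lemma ar1 (w k n P : ℕ) : w + (n + 1) * k + n + P + 2 ≤ (w + k + n + P + 2) ^ 2 := by
  have h1 : n * k ≤ (w + k + n + P) * (w + k + n + P) := Nat.mul_le_mul (by omega) (by omega)
  rw [ar_sq]
  have h3 : w + (n + 1) * k + n + P + 2 = n * k + (w + k + n + P) + 2 := by ring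
  rw [h3]
  omega

lemma ar2 (w k n P : ℕ) : 2 * (w * P) + 1 ≤ (w + k + n + P + 2) ^ 2 := by
  have h1 : 4 * (w * P) ≤ (w + P) * (w + P) := by
    have := sq_nonneg ((w : ℤ) - P)
    zify
    nlinarith
  have h3 : (w + P) * (w + P) ≤ (w + k + n + P) * (w + k + n + P) :=
    Nat.mul_le_mul (by omega) (by omega)
  rw [ar_sq]
  omega

lemma ar3 (w k n P : ℕ) : 2 * w + 3 ≤ (w + k + n + P + 2) ^ 2 := by
  rw [ar_sq]
  have := Nat.zero_le ((w + k + n + P) * (w + k + n + P))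
  omega

lemma ar4 (M k : ℕ) (hM : 1 ≤ M) : 2 * (2 * M) * k + k ≤ 5 * M * k := by
  have : 1 * k ≤ M * k := Nat.mul_le_mul_right _ hM
  have h2 : 2 * (2 * M) * k = 4 * (M * k) := by ring
  have h3 : 5 * M * k = 5 * (M * k) := by ring
  rw [h2, h3]
  omega

lemma th0 (w k n P : ℕ) : (2 * w + 1) * (2 * (w + 1) * k + k) ≤ (w + k + n + P + 2) ^ 5 := by
  have h1 := ar3 w k n P
  have h2 : 2 * w + 1 ≤ (w + k + n + P + 2) ^ 2 := by omega
  have h3 : 2 * (w + 1) * k + k = (2 * w + 3) * k := by ring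
  rw [h3]
  calc (2 * w + 1) * ((2 * w + 3) * k)
      ≤ (w + k + n + P + 2) ^ 2 * ((w + k + n + P + 2) ^ 2 * (w + k + n + P + 2)) :=
        Nat.mul_le_mul h2 (Nat.mul_le_mul h1 (by omega))
    _ = (w + k + n + P + 2) ^ 5 := by rw [← pow_succ, ← pow_add]

lemma th1 (w k n P c : ℕ) :
    (2 * (w * P) + 1) * (2 * (2 * (w * P + (w + (n + 1) * k + n + P + 2) ^ c + 1)) * k + k)
      ≤ (w + k + n + P + 2) ^ (2 * c + 10) := by
  have h1 := ar1 w k n P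
  have h2 := ar2 w k n P
  have hm2 : 2 ≤ w + k + n + P + 2 := by omega
  have hkm : k ≤ w + k + n + P + 2 := by omega
  generalize w + k + n + P + 2 = m at h1 h2 hm2 hkm ⊢
  generalize w + (n + 1) * k + n + P + 2 = m' at h1 ⊢
  generalize w * P = q at h2 ⊢
  have h3 : m' ^ c ≤ m ^ (2 * c) := by
    rw [pow_mul]
    exact Nat.pow_le_pow_left h1 c
  have hpos : 1 ≤ m ^ (2 * c) := Nat.one_le_pow _ _ (by omega)
  have h4 : q + m' ^ c + 1 ≤ m ^ (2 * c + 3) := by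
    have h5 : m ^ 2 * 1 ≤ m ^ 2 * m ^ (2 * c) := Nat.mul_le_mul_left _ hpos
    have h6 : m ^ (2 * c) ≤ m ^ 2 * m ^ (2 * c) :=
      Nat.le_mul_of_pos_left _ (by positivity)
    have h7 : 2 * (m ^ 2 * m ^ (2 * c)) ≤ m * (m ^ 2 * m ^ (2 * c)) :=
      Nat.mul_le_mul_right _ hm2
    have h8 : m * (m ^ 2 * m ^ (2 * c)) = m ^ (2 * c + 3) := by ring
    rw [← h8]
    omega
  have h9 : 2 * (2 * (q + m' ^ c + 1)) * k + k ≤ m ^ (2 * c + 8) := by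
    refine (ar4 _ k (by omega)).trans ?_
    have h10 : 5 ≤ m ^ 4 := by
      have : 2 ^ 4 ≤ m ^ 4 := Nat.pow_le_pow_left hm2 4
      omega
    calc 5 * (q + m' ^ c + 1) * k ≤ m ^ 4 * m ^ (2 * c + 3) * m :=
          Nat.mul_le_mul (Nat.mul_le_mul h10 h4) hkm
      _ = m ^ (2 * c + 8) := by ring
  calc (2 * q + 1) * (2 * (2 * (q + m' ^ c + 1)) * k + k) ≤ m ^ 2 * m ^ (2 * c + 8) :=
        Nat.mul_le_mul h2 h9
    _ = m ^ (2 * c + 10) := by ring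

/-- The last step of the counting. -/
lemma fin0 (B C w k N : ℕ) (h1 : B * C ≤ N * w ^ k) (h2 : (2 * (w + 1)) ^ k ≤ C) :
    B * 2 ^ k ≤ N := by
  have h9 : (w + 1) ^ k * (B * 2 ^ k) ≤ (w + 1) ^ k * N := by
    calc (w + 1) ^ k * (B * 2 ^ k) = B * (2 * (w + 1)) ^ k := by rw [mul_pow]; ring
      _ ≤ B * C := Nat.mul_le_mul_left _ h2
      _ ≤ N * w ^ k := h1
      _ ≤ N * (w + 1) ^ k := Nat.mul_le_mul_left _ (Nat.pow_le_pow_left (by omega) k)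
      _ = (w + 1) ^ k * N := by ring
  exact Nat.le_of_mul_le_mul_left h9 (by positivity)

lemma fin1 (B C D M k N : ℕ) (hM : 1 ≤ M) (hBN : B ≤ N) (h1 : B * C ≤ N * M ^ k + D)
    (h2 : (2 * (2 * M)) ^ k ≤ C) (h3 : D ≤ N) : B * 2 ^ k ≤ N := by
  have hMpos : 1 ≤ M ^ k := Nat.one_le_pow _ _ (by omega)
  have h4 : (4 : ℕ) ^ k = 2 ^ k * 2 ^ k := by
    rw [← mul_pow]
    norm_num
  have h16 : M ^ k * (B * 4 ^ k) ≤ M ^ k * (2 * N) := by
    calc M ^ k * (B * 4 ^ k) = B * (2 * (2 * M)) ^ k := by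
          rw [mul_pow, mul_pow, h4]
          ring
      _ ≤ B * C := Nat.mul_le_mul_left _ h2
      _ ≤ N * M ^ k + D := h1
      _ ≤ N * M ^ k + N * 1 := by omega
      _ ≤ N * M ^ k + N * M ^ k := Nat.add_le_add_left (Nat.mul_le_mul_left _ hMpos) _
      _ = M ^ k * (2 * N) := by ring
  have h17 : B * 4 ^ k ≤ 2 * N := Nat.le_of_mul_le_mul_left h16 (by positivity)
  rcases Nat.eq_zero_or_pos k with hk | hk
  · rw [hk, pow_zero, mul_one]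
    exact hBN
  · have h20 : 2 ≤ 2 ^ k := by
      calc 2 = 2 ^ 1 := by norm_num
        _ ≤ 2 ^ k := Nat.pow_le_pow_right (by norm_num) hk
    have h21 : 2 * (B * 2 ^ k) ≤ B * 4 ^ k := by
      rw [h4]
      calc 2 * (B * 2 ^ k) ≤ 2 ^ k * (B * 2 ^ k) := Nat.mul_le_mul_right _ h20
        _ = B * (2 ^ k * 2 ^ k) := by ring
    omega

lemma choose_two (r n k : ℕ) (h : r ≤ 2 ^ n) : r.choose k * 2 ^ k ≤ 2 ^ ((n + 1) * k) := by
  calc r.choose k * 2 ^ k ≤ r ^ k * 2 ^ k := Nat.mul_le_mul_right _ (Nat.choose_le_pow _ _)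
    _ ≤ (2 ^ n) ^ k * 2 ^ k := Nat.mul_le_mul_right _ (Nat.pow_le_pow_left h k)
    _ = 2 ^ ((n + 1) * k) := by rw [← mul_pow, ← pow_succ, ← pow_mul]

lemma th2 (m c : ℕ) (hm : 2 ≤ m) : m + m ^ c ≤ m ^ (c + 2) := by
  have hP1 : 1 ≤ m ^ c := Nat.one_le_pow _ _ (by omega)
  have h1 : m * 1 ≤ m * m ^ c := Nat.mul_le_mul_left _ hP1
  have h2 : m ^ c ≤ m * m ^ c := Nat.le_mul_of_pos_left _ (by omega)
  have h3 : 2 * (m * m ^ c) ≤ m * (m * m ^ c) := Nat.mul_le_mul_right _ hm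
  have h4 : m * (m * m ^ c) = m ^ (c + 2) := by ring
  rw [← h4]
  omega

lemma th3 (m w c : ℕ) (hm : 2 ≤ m) (hw : w ≤ m) : w + w * m ^ c ≤ m ^ (c + 2) := by
  have hP1 : 1 ≤ m ^ c := Nat.one_le_pow _ _ (by omega)
  have h1 : w * 1 ≤ m * m ^ c := Nat.mul_le_mul hw hP1
  have h2 : w * m ^ c ≤ m * m ^ c := Nat.mul_le_mul_right _ hw
  have h3 : 2 * (m * m ^ c) ≤ m * (m * m ^ c) := Nat.mul_le_mul_right _ hm
  have h4 : m * (m * m ^ c) = m ^ (c + 2) := by ring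
  rw [← h4]
  omega

lemma th4 (m c c2 : ℕ) (hm : 2 ≤ m) : (m + m ^ c) ^ c2 ≤ m ^ ((c + 2) * (c2 + 1)) := by
  calc (m + m ^ c) ^ c2 ≤ (m ^ (c + 2)) ^ c2 := Nat.pow_le_pow_left (th2 m c hm) c2
    _ = m ^ ((c + 2) * c2) := by rw [← pow_mul]
    _ ≤ m ^ ((c + 2) * (c2 + 1)) :=
      Nat.pow_le_pow_right (by omega) (Nat.mul_le_mul_left _ (by omega))

lemma th5 (m c c2 : ℕ) (hm : 2 ≤ m) : m ^ (c + 2) ≤ m ^ ((c + 2) * (c2 + 1)) :=
  Nat.pow_le_pow_right (by omega) (Nat.le_mul_of_pos_right _ (by omega))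

lemma th6 (m c c2 : ℕ) (hm : 2 ≤ m) : m ^ c ≤ m ^ ((c + 2) * (c2 + 1)) :=
  (Nat.pow_le_pow_right (by omega) (by omega)).trans (th5 m c c2 hm)

end Pool.Agent.H77.NB
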