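import Pool.Agent.H77.NB.Defs

/-!
# The base case

For a DNF `F` of width `w` in a table with one zero per row: the tables for which `F` is false but
becomes true for `(2 w + 1) K` rows when the row is made all ones, are rare.
-/

open scoped Classical

namespace Pool.Agent.H77.NB

variable {R Y V : Type}

/-- The rows mentioned in a term. -/
noncomputable def rows (t : Finset (Lit R Y V)) : Finset R :=
  t.biUnion (fun q => match q.1 with
    | Sum.inl p => {p.1}
    | Sum.inr _ => ∅)

lemma rows_card (t : Finset (Lit R Y V)) : (rows t).card ≤ t.card := by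
  unfold rows
  refine le_trans (Finset.card_biUnion_le_card_mul _ _ 1 ?_) (by simp)
  intro q _
  rcases q.1 with p | v
  · simp
  · simp

lemma mem_rows {t : Finset (Lit R Y V)} {q : Lit R Y V} {p : R × Y} (hq : q ∈ t)
    (h : q.1 = Sum.inl p) : p.1 ∈ rows t := by
  unfold rows
  rw [Finset.mem_biUnion]
  refine ⟨q, hq, ?_⟩
  rw [h]
  simp

/-- A term which is satisfied after some rows have been hidden, but not before, mentions the zero of
a hidden row. -/
lemma exists_zero {A : R → Y} {J : Finset R} {e : V → Bool} {t : Finset (Lit R Y V)}
    (h1 : Sat (hide A J) e t) (h2 : ¬ Sat (so A) e t) :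
    ∃ q ∈ t, ∃ j ∈ J, q.1 = Sum.inl (j, A j) := by
  unfold Sat at h2
  push Not at h2
  obtain ⟨q, hq, hne⟩ := h2
  have h3 := h1 q hq
  refine ⟨q, hq, ?_⟩
  rcases hq1 : q.1 with ⟨x, y⟩ | v
  · rw [hq1, val_inl] at hne h3
    rw [← h3] at hne
    by_cases hx : x ∈ J
    · refine ⟨x, hx, ?_⟩
      have : A x = y := by
        by_contra hc
        apply hne
        simp [so, hide, hx, hc]
      rw [this]
    · exfalso
      apply hne
      simp [so, hide, hx]
  · rw [hq1, val_inr] at hne h3
    exact absurd h3 hne

/-- The number of tables which give the partial table `u`. -/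
lemma base_fiber [Fintype R] [Fintype Y] (F : Finset (Finset (Lit R Y V))) (w : ℕ) (hF : ∀ t ∈ F, t.card ≤ w)
    (e : V → Bool) : ∀ (k : ℕ) (u : R → Option Y),
    (Finset.univ.filter (fun x => u x = none)).card = k →
    (Finset.univ.filter (fun A : R → Y => (∀ x, u x ≠ none → u x = some (A x)) ∧
      ev F (so A) e = false ∧ ∀ J ⊆ Finset.univ.filter (fun x => u x = none), J.Nonempty →
      ev F (hide A J) e = true)).card ≤ w ^ k := by
  intro k
  induction k with
  | zero =>
    intro u hu
    rw [pow_zero, Finset.card_le_one]
    intro A hA B hB
    simp only [Finset.mem_filter, Finset.mem_univ, true_and] at hA hB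
    rw [Finset.card_eq_zero] at hu
    funext x
    have hx : u x ≠ none := by
      intro h
      have : x ∈ Finset.univ.filter (fun x => u x = none) := by simp [h]
      rw [hu] at this
      simp at this
    have h1 := hA.1 x hx
    have h2 := hB.1 x hx
    rw [h1] at h2
    exact Option.some_injective _ h2
  | succ k ih =>
    intro u hu
    set G := Finset.univ.filter (fun A : R → Y => (∀ x, u x ≠ none → u x = some (A x)) ∧
      ev F (so A) e = false ∧ ∀ J ⊆ Finset.univ.filter (fun x => u x = none), J.Nonempty →
      ev F (hide A J) e = true) with hG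
    set N := Finset.univ.filter (fun x => u x = none) with hN
    have hNne : N.Nonempty := Finset.card_pos.mp (by omega)
    -- the partial table is recovered
    have hrec : ∀ A ∈ G, hide A N = u := by
      intro A hA
      simp only [hG, Finset.mem_filter, Finset.mem_univ, true_and] at hA
      funext x
      unfold hide
      by_cases hx : u x = none
      · have : x ∈ N := by simp [hN, hx]
        rw [if_pos this, hx]
      · have : x ∉ N := by simp [hN, hx]
        rw [if_neg this]
        exact (hA.1 x hx).symm
    rcases Finset.eq_empty_or_nonempty G with he | ⟨A₀, hA₀⟩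
    · rw [he]
      simp
    have hev : ev F u e = true := by
      have h := hA₀
      simp only [hG, Finset.mem_filter, Finset.mem_univ, true_and] at h
      rw [← hrec A₀ hA₀]
      exact h.2.2 N (Finset.Subset.refl _) hNne
    obtain ⟨t, ht, hts⟩ := ev_true.mp hev
    have hsub : G ⊆ t.biUnion (fun q => G.filter (fun A => ∃ j ∈ N, q.1 = Sum.inl (j, A j))) := by
      intro A hA
      have hAr := hrec A hA
      have hA' := hA
      simp only [hG, Finset.mem_filter, Finset.mem_univ, true_and] at hA'
      obtain ⟨hA1, hA2, hA3⟩ := hA'
      have h1 : Sat (hide A N) e t := by rw [hAr]; exact hts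
      have h2 : ¬ Sat (so A) e t := ev_false.mp hA2 t ht
      obtain ⟨q, hq, j, hj, hqj⟩ := exists_zero h1 h2
      rw [Finset.mem_biUnion]
      exact ⟨q, hq, Finset.mem_filter.mpr ⟨hA, j, hj, hqj⟩⟩
    have hone : ∀ q : Lit R Y V, (G.filter (fun A => ∃ j ∈ N, q.1 = Sum.inl (j, A j))).card
        ≤ w ^ k := by
      intro q
      rcases Finset.eq_empty_or_nonempty (G.filter (fun A => ∃ j ∈ N, q.1 = Sum.inl (j, A j)))
        with he | ⟨B, hB⟩
      · rw [he]
        simp
      · obtain ⟨hBG, j, hj, hqj⟩ := Finset.mem_filter.mp hB
        have hjn : u j = none := by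
          simp only [hN, Finset.mem_filter, Finset.mem_univ, true_and] at hj
          exact hj
        have hcard : (Finset.univ.filter
            (fun x' => Function.update u j (some (B j)) x' = none)).card = k := by
          have : Finset.univ.filter (fun x' => Function.update u j (some (B j)) x' = none)
              = N.erase j := by
            ext x'
            simp only [hN, Finset.mem_filter, Finset.mem_univ, true_and, Finset.mem_erase]
            by_cases hxx : x' = j
            · subst hxx
              rw [Function.update_self]
              simp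
            · rw [Function.update_of_ne hxx]
              simp [hxx]
          rw [this, Finset.card_erase_of_mem hj, hu]
          rfl
        refine le_trans (Finset.card_le_card ?_)
          (ih (Function.update u j (some (B j))) hcard)
        intro A hA
        obtain ⟨hAG, j', hj', hqj'⟩ := Finset.mem_filter.mp hA
        rw [hqj] at hqj'
        have hjj : j = j' ∧ B j = A j' := by
          have := Sum.inl_injective hqj'
          rw [Prod.mk.injEq] at this
          exact this
        obtain ⟨rfl, hBA⟩ := hjj
        simp only [hG, Finset.mem_filter, Finset.mem_univ, true_and] at hAG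
        obtain ⟨hA1, hA2, hA3⟩ := hAG
        simp only [Finset.mem_filter, Finset.mem_univ, true_and]
        refine ⟨?_, hA2, ?_⟩
        · intro x hx
          by_cases hxj : x = j
          · subst hxj
            rw [Function.update_self, hBA]
          · rw [Function.update_of_ne hxj] at hx ⊢
            exact hA1 x hx
        · intro J hJ hJne
          apply hA3 J _ hJne
          intro x hx
          have hx' := hJ hx
          simp only [hN, Finset.mem_filter, Finset.mem_univ, true_and] at hx' ⊢
          by_cases hxj : x = j
          · rw [hxj]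
            exact hjn
          · rwa [Function.update_of_ne hxj] at hx'
    calc G.card ≤ _ := Finset.card_le_card hsub
      _ ≤ t.card * w ^ k := Finset.card_biUnion_le_card_mul _ _ _ (fun q _ => hone q)
      _ ≤ w * w ^ k := Nat.mul_le_mul_right _ (hF t ht)
      _ = w ^ (k + 1) := by rw [pow_succ, mul_comm]

/-- The base case: tables. -/
lemma base_tables [Fintype R] [Fintype Y] (F : Finset (Finset (Lit R Y V))) (w : ℕ) (hF : ∀ t ∈ F, t.card ≤ w)
    (e : V → Bool) (hRY : Fintype.card R ≤ Fintype.card Y) (K k : ℕ) :
    (Finset.univ.filter (fun A : R → Y => ev F (so A) e = false ∧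
      (2 * w + 1) * K ≤ (Finset.univ.filter (fun x => ev F (cut (so A) x) e = true)).card)).card
      * K.choose k ≤ Fintype.card Y ^ Fintype.card R * w ^ k := by
  set Bad := Finset.univ.filter (fun A : R → Y => ev F (so A) e = false ∧
      (2 * w + 1) * K ≤ (Finset.univ.filter (fun x => ev F (cut (so A) x) e = true)).card)
    with hBad
  -- conflict-free sets
  have hI : ∀ A ∈ Bad, ∃ I : Finset R, K ≤ I.card ∧ ∀ J ⊆ I, J.Nonempty →
      ev F (hide A J) e = true := by
    intro A hA
    simp only [hBad, Finset.mem_filter, Finset.mem_univ, true_and] at hA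
    obtain ⟨hA1, hA2⟩ := hA
    have hT : ∀ x, ∃ t : Finset (Lit R Y V), t.card ≤ w ∧
        (ev F (cut (so A) x) e = true → t ∈ F ∧ Sat (cut (so A) x) e t) := by
      intro x
      by_cases hx : ev F (cut (so A) x) e = true
      · obtain ⟨t, ht, hs⟩ := ev_true.mp hx
        exact ⟨t, hF t ht, fun _ => ⟨ht, hs⟩⟩
      · exact ⟨∅, by simp, fun h => absurd h hx⟩
    choose T hTw hT using hT
    obtain ⟨I, hIX, hIc, hIi⟩ := exists_indep (fun x => rows (T x)) w _
      (Finset.univ.filter (fun x => ev F (cut (so A) x) e = true)) rfl
      (fun x _ => (rows_card _).trans (hTw x))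
    refine ⟨I, ?_, ?_⟩
    · have := hA2.trans hIc
      exact Nat.le_of_mul_le_mul_left this (by omega)
    · intro J hJ ⟨j, hj⟩
      have hjI := hJ hj
      have hjx := hIX hjI
      simp only [Finset.mem_filter, Finset.mem_univ, true_and] at hjx
      obtain ⟨h1, h2⟩ := hT j hjx
      rw [ev_true]
      refine ⟨T j, h1, ?_⟩
      refine (Sat_congr ?_).mp h2
      intro q hq
      rcases hq1 : q.1 with ⟨x, y⟩ | v
      · rw [val_inl, val_inl]
        simp only
        by_cases hxj : x = j
        · subst hxj
          rw [cut_self]
          simp [hide, hj]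
        · rw [cut_of_ne hxj]
          by_cases hxJ : x ∈ J
          · exfalso
            exact hIi j hjI x (hJ hxJ) (fun h => hxj h.symm) (mem_rows hq hq1)
          · simp [hide, so, hxJ]
      · rfl
  choose! I hIc hIJ using hI
  -- pairs
  have hpairs : Bad.card * K.choose k ≤
      ∑ J ∈ (Finset.univ : Finset R).powersetCard k, (Bad.filter (fun A => J ⊆ I A)).card := by
    calc Bad.card * K.choose k = ∑ A ∈ Bad, K.choose k := by rw [Finset.sum_const, smul_eq_mul]
      _ ≤ ∑ A ∈ Bad, (((Finset.univ : Finset R).powersetCard k).filter
          (fun J => J ⊆ I A)).card := by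
        refine Finset.sum_le_sum fun A hA => ?_
        have : ((Finset.univ : Finset R).powersetCard k).filter (fun J => J ⊆ I A)
            = (I A).powersetCard k := by
          ext J
          simp only [Finset.mem_filter, Finset.mem_powersetCard]
          constructor
          · rintro ⟨⟨_, h1⟩, h2⟩
            exact ⟨h2, h1⟩
          · rintro ⟨h1, h2⟩
            exact ⟨⟨Finset.subset_univ _, h2⟩, h1⟩
        rw [this, Finset.card_powersetCard]
        exact Nat.choose_le_choose k (hIc A hA)
      _ = _ := by
        simp only [Finset.card_filter]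
        rw [Finset.sum_comm]
  have hJ : ∀ J ∈ (Finset.univ : Finset R).powersetCard k,
      (Bad.filter (fun A => J ⊆ I A)).card ≤ w ^ k * Fintype.card Y ^ (Fintype.card R - k) := by
    intro J hJ
    have hJk := (Finset.mem_powersetCard.mp hJ).2
    have h1 := Finset.card_le_mul_card_image_of_maps_to (s := Bad.filter (fun A => J ⊆ I A))
      (t := (Finset.univ : Finset ({x : R // x ∉ J} → Y))) (f := fun A x => A x.1)
      (fun _ _ => Finset.mem_univ _) (w ^ k) (by
        intro g _
        -- the partial table
        set u : R → Option Y := fun x => if h : x ∉ J then some (g ⟨x, h⟩) else none with hu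
        have hnone : Finset.univ.filter (fun x => u x = none) = J := by
          ext x
          simp only [Finset.mem_filter, Finset.mem_univ, true_and, hu]
          by_cases hx : x ∈ J
          · simp [hx]
          · simp [hx]
        refine le_trans (Finset.card_le_card ?_) (base_fiber F w hF e k u (by rw [hnone, hJk]))
        intro A hA
        simp only [Finset.mem_filter] at hA
        obtain ⟨⟨hA1, hA2⟩, hA3⟩ := hA
        simp only [Finset.mem_filter, Finset.mem_univ, true_and]
        refine ⟨?_, ?_, ?_⟩
        · intro x hx
          by_cases hxJ : x ∈ J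
          · exfalso
            apply hx
            simp [hu, hxJ]
          · have := congrFun hA3 ⟨x, hxJ⟩
            simp only at this
            simp [hu, hxJ, this]
        · simp only [hBad, Finset.mem_filter, Finset.mem_univ, true_and] at hA1
          exact hA1.1
        · rw [hnone]
          intro J' hJ' hne
          exact hIJ A hA1 J' (hJ'.trans hA2) hne)
    rw [Finset.card_univ, Fintype.card_fun] at h1
    have h2 : Fintype.card {x : R // x ∉ J} = Fintype.card R - k := by
      rw [Fintype.card_subtype_compl (fun x => x ∈ J)]
      simp [hJk]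
    rw [h2] at h1
    exact h1
  rcases Nat.lt_or_ge (Fintype.card R) k with hk | hk
  · have : (Finset.univ : Finset R).powersetCard k = ∅ := by
      rw [Finset.powersetCard_eq_empty, Finset.card_univ]
      exact hk
    rw [this, Finset.sum_empty] at hpairs
    omega
  · have h3 : (Fintype.card R).choose k ≤ Fintype.card Y ^ k := by
      refine le_trans (Nat.choose_le_pow _ _) ?_
      exact Nat.pow_le_pow_left hRY k
    calc Bad.card * K.choose k ≤ _ := hpairs
      _ ≤ ∑ J ∈ (Finset.univ : Finset R).powersetCard k,
          w ^ k * Fintype.card Y ^ (Fintype.card R - k) := Finset.sum_le_sum hJ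
      _ = (Fintype.card R).choose k * (w ^ k * Fintype.card Y ^ (Fintype.card R - k)) := by
        rw [Finset.sum_const, smul_eq_mul, Finset.card_powersetCard, Finset.card_univ]
      _ ≤ Fintype.card Y ^ k * (w ^ k * Fintype.card Y ^ (Fintype.card R - k)) :=
        Nat.mul_le_mul_right _ h3
      _ = (Fintype.card Y ^ k * Fintype.card Y ^ (Fintype.card R - k)) * w ^ k := by ring
      _ = _ := by
        rw [← pow_add]
        congr 2
        omega

end Pool.Agent.H77.NB
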