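import Mathlib

/-!
# Counting lemmas for the ideal world

`decode_count`: if `J` can be recovered from `T J z` one element at a time, each time from at most `M`
candidates, then the set of the `z` for which this works for all subsets `J` of a large set `X z` is
small.
-/

open scoped Classical

namespace Pool.Agent.H77.NB

/-- Independent sets in digraphs of out-degree at most `d`. -/
lemma exists_indep {R : Type} (c : R → Finset R) (d : ℕ) : ∀ (m : ℕ) (X : Finset R),
    X.card = m → (∀ x ∈ X, (c x).card ≤ d) →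
    ∃ I ⊆ X, X.card ≤ (2 * d + 1) * I.card ∧ ∀ x ∈ I, ∀ y ∈ I, x ≠ y → y ∉ c x := by
  intro m
  induction m using Nat.strong_induction_on with
  | _ m ih =>
    intro X hm hd
    rcases Finset.eq_empty_or_nonempty X with rfl | hne
    · exact ⟨∅, by simp, by simp, by simp⟩
    -- an element of small in-degree
    obtain ⟨x, hx, hxd⟩ : ∃ x ∈ X, (X.filter (fun y => x ∈ c y)).card ≤ d := by
      by_contra hcon
      push Not at hcon
      have h1 : ∑ x ∈ X, (d + 1) ≤ ∑ x ∈ X, (X.filter (fun y => x ∈ c y)).card :=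
        Finset.sum_le_sum fun x hx => hcon x hx
      have h2 : ∑ x ∈ X, (X.filter (fun y => x ∈ c y)).card
          = ∑ y ∈ X, (X.filter (fun x => x ∈ c y)).card := by
        simp only [Finset.card_filter]
        rw [Finset.sum_comm]
      have h3 : ∑ y ∈ X, (X.filter (fun x => x ∈ c y)).card ≤ ∑ y ∈ X, d := by
        refine Finset.sum_le_sum fun y hy => ?_
        refine le_trans (Finset.card_le_card ?_) (hd y hy)
        intro x hx
        exact (Finset.mem_filter.mp hx).2
      rw [Finset.sum_const, smul_eq_mul] at h1 h3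
      have h4 : 0 < X.card := Finset.card_pos.mpr hne
      nlinarith
    set X' := X.filter (fun y => y ≠ x ∧ y ∉ c x ∧ x ∉ c y) with hX'
    have hX'X : X' ⊆ X := Finset.filter_subset _ _
    have hxX' : x ∉ X' := by simp [hX']
    have hlt : X'.card < m := by
      rw [← hm]
      exact Finset.card_lt_card ⟨hX'X, fun h => hxX' (h hx)⟩
    obtain ⟨I, hI, hIc, hIi⟩ := ih X'.card hlt X' rfl (fun y hy => hd y (hX'X hy))
    have hxI : x ∉ I := fun h => hxX' (hI h)
    refine ⟨insert x I, ?_, ?_, ?_⟩
    · intro y hy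
      rcases Finset.mem_insert.mp hy with rfl | hy
      · exact hx
      · exact hX'X (hI hy)
    · rw [Finset.card_insert_of_notMem hxI]
      have hcov : X ⊆ X' ∪ ({x} ∪ (c x ∪ X.filter (fun y => x ∈ c y))) := by
        intro y hy
        simp only [Finset.mem_union, Finset.mem_singleton, hX', Finset.mem_filter]
        tauto
      have h1 := Finset.card_le_card hcov
      have h2 := Finset.card_union_le X' ({x} ∪ (c x ∪ X.filter (fun y => x ∈ c y)))
      have h3 := Finset.card_union_le {x} (c x ∪ X.filter (fun y => x ∈ c y))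
      have h4 := Finset.card_union_le (c x) (X.filter (fun y => x ∈ c y))
      have h5 := hd x hx
      rw [Finset.card_singleton] at h3
      have h6 : (2 * d + 1) * (I.card + 1) = (2 * d + 1) * I.card + (2 * d + 1) := by ring
      omega
    · intro y hy z hz hyz
      have hmem : ∀ w ∈ I, w ∉ c x ∧ x ∉ c w := by
        intro w hw
        have := hI hw
        simp only [hX', Finset.mem_filter] at this
        exact this.2.2
      rcases Finset.mem_insert.mp hy with hyx | hyI
      · rcases Finset.mem_insert.mp hz with hzx | hzI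
        · exact absurd (hyx.trans hzx.symm) hyz
        · rw [hyx]
          exact (hmem z hzI).1
      · rcases Finset.mem_insert.mp hz with hzx | hzI
        · rw [hzx]
          exact (hmem y hyI).2
        · exact hIi y hyI z hzI hyz

/-- Lower bound for binomial coefficients. -/
lemma pow_le_choose (M k K : ℕ) (h : 2 * M * k + k ≤ K) : (2 * M) ^ k ≤ K.choose k := by
  rcases Nat.eq_zero_or_pos k with rfl | hk
  · simp
  · have h1 : (K + 1 - k) ^ k ≤ k.factorial * K.choose k := by
      have := Nat.pow_sub_le_descFactorial K k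
      rwa [Nat.descFactorial_eq_factorial_mul_choose] at this
    have h2 : (2 * M * k) ^ k ≤ (K + 1 - k) ^ k := Nat.pow_le_pow_left (by omega) k
    have h3 : k.factorial * K.choose k ≤ k ^ k * K.choose k :=
      Nat.mul_le_mul_right _ (Nat.factorial_le_pow k)
    have h4 : k ^ k * (2 * M) ^ k ≤ k ^ k * K.choose k := by
      calc k ^ k * (2 * M) ^ k = (2 * M * k) ^ k := by rw [mul_pow (2 * M) k, mul_comm]
        _ ≤ _ := h2.trans (h1.trans h3)
    exact Nat.le_of_mul_le_mul_left h4 (pow_pos hk k)

section Decode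

variable {Z R : Type} [Fintype R]

/-- The number of `J` with a given value `T J z`. -/
lemma decode_fiber (T : Finset R → Z → Z)
    (h1 : ∀ (J : Finset R) (j : R) (z : Z), j ∈ J → T (J.erase j) (T {j} z) = T J z)
    (h2 : ∀ (J : Finset R) (z : Z), T J (T J z) = z)
    (Bad Atyp : Finset Z) (X cand : Z → Finset R) (M : ℕ)
    (hc : ∀ u, u ∉ Atyp → (cand u).card ≤ M)
    (hn : ∀ z ∈ Bad, ∀ J ⊆ X z, J.Nonempty → ∃ j ∈ J, j ∈ cand (T J z)) :
    ∀ (k : ℕ) (u : Z), (Finset.univ.filter (fun J : Finset R => J.card = k ∧ T J u ∈ Bad ∧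
      J ⊆ X (T J u) ∧ ∀ J' ⊆ J, T J' (T J u) ∉ Atyp)).card ≤ M ^ k := by
  intro k
  induction k with
  | zero =>
    intro u
    rw [pow_zero, Finset.card_le_one]
    intro a ha b hb
    simp only [Finset.mem_filter, Finset.mem_univ, true_and] at ha hb
    rw [Finset.card_eq_zero.mp ha.1, Finset.card_eq_zero.mp hb.1]
  | succ k ih =>
    intro u
    set S := Finset.univ.filter (fun J : Finset R => J.card = k + 1 ∧ T J u ∈ Bad ∧
      J ⊆ X (T J u) ∧ ∀ J' ⊆ J, T J' (T J u) ∉ Atyp) with hS
    rcases Finset.eq_empty_or_nonempty S with he | ⟨J₀, hJ₀⟩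
    · rw [he]
      simp
    have hu : u ∉ Atyp := by
      simp only [hS, Finset.mem_filter, Finset.mem_univ, true_and] at hJ₀
      have := hJ₀.2.2.2 J₀ (Finset.Subset.refl _)
      rwa [h2] at this
    have hsub : S ⊆ (cand u).biUnion (fun j => (Finset.univ.filter (fun J : Finset R =>
        J.card = k ∧ T J (T {j} u) ∈ Bad ∧ J ⊆ X (T J (T {j} u)) ∧
        ∀ J' ⊆ J, T J' (T J (T {j} u)) ∉ Atyp)).image (fun J => insert j J)) := by
      intro J hJ
      simp only [hS, Finset.mem_filter, Finset.mem_univ, true_and] at hJ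
      obtain ⟨hJc, hJb, hJX, hJa⟩ := hJ
      obtain ⟨j, hj, hjc⟩ := hn (T J u) hJb J hJX (Finset.card_pos.mp (by omega))
      rw [h2] at hjc
      rw [Finset.mem_biUnion]
      refine ⟨j, hjc, ?_⟩
      rw [Finset.mem_image]
      refine ⟨J.erase j, ?_, Finset.insert_erase hj⟩
      simp only [Finset.mem_filter, Finset.mem_univ, true_and]
      rw [h1 J j u hj]
      refine ⟨by rw [Finset.card_erase_of_mem hj, hJc]; rfl, hJb,
        (Finset.erase_subset j J).trans hJX, fun J' hJ' => hJa J' (hJ'.trans (J.erase_subset j))⟩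
    calc S.card ≤ _ := Finset.card_le_card hsub
      _ ≤ ∑ j ∈ cand u, _ := Finset.card_biUnion_le
      _ ≤ ∑ j ∈ cand u, M ^ k := by
        refine Finset.sum_le_sum fun j _ => ?_
        exact Finset.card_image_le.trans (ih (T {j} u))
      _ = (cand u).card * M ^ k := by rw [Finset.sum_const, smul_eq_mul]
      _ ≤ M * M ^ k := Nat.mul_le_mul_right _ (hc u hu)
      _ = M ^ (k + 1) := by rw [pow_succ, mul_comm]

lemma decode_count [Fintype Z] (T : Finset R → Z → Z)
    (h1 : ∀ (J : Finset R) (j : R) (z : Z), j ∈ J → T (J.erase j) (T {j} z) = T J z)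
    (h2 : ∀ (J : Finset R) (z : Z), T J (T J z) = z)
    (Bad Atyp : Finset Z) (X cand : Z → Finset R) (M K k : ℕ)
    (hc : ∀ u, u ∉ Atyp → (cand u).card ≤ M)
    (hn : ∀ z ∈ Bad, ∀ J ⊆ X z, J.Nonempty → ∃ j ∈ J, j ∈ cand (T J z))
    (hX : ∀ z ∈ Bad, K ≤ (X z).card) :
    Bad.card * K.choose k ≤ Fintype.card Z * M ^ k
      + Atyp.card * ((Fintype.card R).choose k * 2 ^ k) := by
  -- pairs
  set P : Finset ((_ : Z) × Finset R) := Bad.sigma (fun z => (X z).powersetCard k) with hP
  set P1 : Finset ((_ : Z) × Finset R) := P.filter (fun p => ∀ J' ⊆ p.2, T J' p.1 ∉ Atyp) with hP1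
  set P2 : Finset ((_ : Z) × Finset R) := P.filter (fun p => ¬ ∀ J' ⊆ p.2, T J' p.1 ∉ Atyp)
    with hP2
  have hsum : P1.card + P2.card = P.card := Finset.card_filter_add_card_filter_not _
  have hPc : Bad.card * K.choose k ≤ P.card := by
    rw [hP, Finset.card_sigma]
    calc Bad.card * K.choose k = ∑ z ∈ Bad, K.choose k := by rw [Finset.sum_const, smul_eq_mul]
      _ ≤ _ := by
        refine Finset.sum_le_sum fun z hz => ?_
        rw [Finset.card_powersetCard]
        exact Nat.choose_le_choose k (hX z hz)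
  have hP1c : P1.card ≤ Fintype.card Z * M ^ k := by
    have hmap : ∀ p ∈ P1, (⟨T p.2 p.1, p.2⟩ : (_ : Z) × Finset R) ∈
        (Finset.univ : Finset Z).sigma (fun u => Finset.univ.filter (fun J : Finset R =>
          J.card = k ∧ T J u ∈ Bad ∧ J ⊆ X (T J u) ∧ ∀ J' ⊆ J, T J' (T J u) ∉ Atyp)) := by
      rintro ⟨z, J⟩ hp
      simp only [hP1, hP, Finset.mem_filter, Finset.mem_sigma, Finset.mem_powersetCard] at hp
      simp only [Finset.mem_sigma, Finset.mem_univ, Finset.mem_filter, true_and, h2]
      exact ⟨hp.1.2.2, hp.1.1, hp.1.2.1, hp.2⟩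
    have hinj : ∀ p ∈ P1, ∀ p' ∈ P1, (⟨T p.2 p.1, p.2⟩ : (_ : Z) × Finset R) = ⟨T p'.2 p'.1, p'.2⟩ →
        p = p' := by
      rintro ⟨z, J⟩ _ ⟨z', J'⟩ _ h
      simp only [Sigma.mk.injEq, heq_eq_eq] at h
      obtain ⟨h3, rfl⟩ := h
      have := congrArg (T J) h3
      rw [h2, h2] at this
      rw [this]
    have := Finset.card_le_card_of_injOn _ hmap (fun p hp p' hp' h => hinj p hp p' hp' h)
    refine this.trans ?_
    rw [Finset.card_sigma]
    calc _ ≤ ∑ u : Z, M ^ k :=
          Finset.sum_le_sum fun u _ => decode_fiber T h1 h2 Bad Atyp X cand M hc hn k u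
      _ = _ := by rw [Finset.sum_const, smul_eq_mul, Finset.card_univ]
  have hP2c : P2.card ≤ Atyp.card * ((Fintype.card R).choose k * 2 ^ k) := by
    -- code a pair by `(J, J', T J' z)`
    set Q : Finset ((_ : Finset R) × (Finset R × Z)) :=
      (Finset.univ.powersetCard k).sigma (fun J => J.powerset ×ˢ Atyp) with hQ
    have hQc : Q.card = Atyp.card * ((Fintype.card R).choose k * 2 ^ k) := by
      rw [hQ, Finset.card_sigma]
      have : ∀ J ∈ (Finset.univ : Finset R).powersetCard k, (J.powerset ×ˢ Atyp).card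
          = 2 ^ k * Atyp.card := by
        intro J hJ
        rw [Finset.card_product, Finset.card_powerset, (Finset.mem_powersetCard.mp hJ).2]
      rw [Finset.sum_congr rfl this, Finset.sum_const, smul_eq_mul, Finset.card_powersetCard,
        Finset.card_univ]
      ring
    rw [← hQc]
    have hex : ∀ p : (_ : Z) × Finset R, p ∈ P2 → ∃ J' ⊆ p.2, T J' p.1 ∈ Atyp := by
      intro p hp
      have := (Finset.mem_filter.mp hp).2
      push Not at this
      exact this
    let f : (_ : Z) × Finset R → (_ : Finset R) × (Finset R × Z) := fun p =>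
      if h : ∃ J' ⊆ p.2, T J' p.1 ∈ Atyp then ⟨p.2, (h.choose, T h.choose p.1)⟩
      else ⟨p.2, (∅, p.1)⟩
    refine Finset.card_le_card_of_injOn f ?_ ?_
    · intro p hp
      have hp' : p ∈ P2 := hp
      have h := hex p hp'
      simp only [f, dif_pos h]
      rw [hQ]
      simp only [Finset.coe_sigma, Set.mem_sigma_iff, Finset.mem_coe, Finset.mem_product,
        Finset.mem_powersetCard, Finset.mem_powerset]
      have hpP := (Finset.mem_filter.mp hp').1
      simp only [hP, Finset.mem_sigma, Finset.mem_powersetCard] at hpP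
      exact ⟨⟨Finset.subset_univ _, hpP.2.2⟩, h.choose_spec.1, h.choose_spec.2⟩
    · intro p hp p' hp' heq
      have h := hex p hp
      have h' := hex p' hp'
      simp only [f, dif_pos h, dif_pos h'] at heq
      simp only [Sigma.mk.injEq, heq_eq_eq, Prod.mk.injEq] at heq
      obtain ⟨e1, e2, e3⟩ := heq
      have e4 := congrArg (T h.choose) e3
      rw [h2] at e4
      rw [e2, h2] at e4
      obtain ⟨z, J⟩ := p
      obtain ⟨z', J'⟩ := p'
      simp only at e1 e4
      rw [e1, e4]
  omega

end Decode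

end Pool.Agent.H77.NB
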