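import Pool.Agent.H77.NB.Count

/-!
# The ideal world: definitions and congruence lemmas

`R` is the set of rows and `Y` the set of columns of a table. A table `A : R → Option Y` has one zero
at column `y` in row `x` if `A x = some y`, and row `x` is all ones if `A x = none`. Besides the table
there are bits `e : V → Bool`. Each bit `v` has a level `lv v` and a DNF `tm v` of width at most `w`
in the table entries and the bits of lower level. When row `x` is made all ones, the bits change
level by level so that `e v xor b v` stays fixed, where `b v` is the value of the DNF of `v`; bits of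
level `0` do not change.
-/

open scoped Classical

namespace Pool.Agent.H77.NB

/-- Variables: table entries and bits. -/
abbrev Var (R Y V : Type) := (R × Y) ⊕ V

/-- Literals: a variable with the required value. -/
abbrev Lit (R Y V : Type) := Var R Y V × Bool

/-- A system of DNFs of width at most `w` with levels. -/
structure Sys (R Y V : Type) where
  /-- level of a bit -/
  lv : V → ℕ
  /-- terms of the DNF of a bit -/
  tm : V → Finset (Finset (Lit R Y V))
  /-- width -/
  w : ℕ
  /-- every term has at most `w` literals -/
  width : ∀ v, ∀ t ∈ tm v, t.card ≤ w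
  /-- the DNF of a bit reads only bits of lower level -/
  below : ∀ v, ∀ t ∈ tm v, ∀ q ∈ t, ∀ v', q.1 = Sum.inr v' → lv v' < lv v

variable {R Y V : Type}

/-- Value of a variable. -/
noncomputable def val (A : R → Option Y) (e : V → Bool) : Var R Y V → Bool
  | Sum.inl p => decide (A p.1 ≠ some p.2)
  | Sum.inr v => e v

@[simp] lemma val_inl (A : R → Option Y) (e : V → Bool) (p : R × Y) :
    val A e (Sum.inl p) = decide (A p.1 ≠ some p.2) := rfl

@[simp] lemma val_inr (A : R → Option Y) (e : V → Bool) (v : V) :
    val A e (Sum.inr v) = e v := rfl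

/-- A term is satisfied. -/
def Sat (A : R → Option Y) (e : V → Bool) (t : Finset (Lit R Y V)) : Prop :=
  ∀ q ∈ t, val A e q.1 = q.2

/-- Value of a DNF. -/
noncomputable def ev (F : Finset (Finset (Lit R Y V))) (A : R → Option Y) (e : V → Bool) : Bool :=
  decide (∃ t ∈ F, Sat A e t)

/-- Make row `x` all ones. -/
noncomputable def cut (A : R → Option Y) (x : R) : R → Option Y := Function.update A x none

/-- The value of the DNF of the bit `v`. -/
noncomputable def Sys.b (S : Sys R Y V) (A : R → Option Y) (e : V → Bool) (v : V) : Bool :=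
  ev (S.tm v) A e

/-- The bits after row `x` has been made all ones, updated up to level `i`. -/
noncomputable def Sys.fl (S : Sys R Y V) (A : R → Option Y) (e : V → Bool) (x : R) : ℕ → V → Bool
  | 0 => e
  | i + 1 => fun v => if S.lv v = i + 1 then
      xor (e v) (xor (S.b A e v) (S.b (cut A x) (S.fl A e x i) v)) else S.fl A e x i v

/-- Does bit `v` change when row `x` is made all ones? -/
noncomputable def Sys.delta (S : Sys R Y V) (A : R → Option Y) (e : V → Bool) (x : R) (v : V) :
    Bool := xor (e v) (S.fl A e x (S.lv v) v)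

lemma Sat_congr {A A' : R → Option Y} {e e' : V → Bool} {t : Finset (Lit R Y V)}
    (h : ∀ q ∈ t, val A e q.1 = val A' e' q.1) : Sat A e t ↔ Sat A' e' t := by
  constructor
  · intro hs q hq
    rw [← h q hq]
    exact hs q hq
  · intro hs q hq
    rw [h q hq]
    exact hs q hq

lemma ev_congr {F : Finset (Finset (Lit R Y V))} {A A' : R → Option Y} {e e' : V → Bool}
    (h : ∀ t ∈ F, ∀ q ∈ t, val A e q.1 = val A' e' q.1) : ev F A e = ev F A' e' := by
  unfold ev
  congr 1
  apply propext
  constructor
  · rintro ⟨t, ht, hs⟩
    exact ⟨t, ht, (Sat_congr (h t ht)).mp hs⟩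
  · rintro ⟨t, ht, hs⟩
    exact ⟨t, ht, (Sat_congr (h t ht)).mpr hs⟩

lemma ev_true {F : Finset (Finset (Lit R Y V))} {A : R → Option Y} {e : V → Bool} :
    ev F A e = true ↔ ∃ t ∈ F, Sat A e t := by
  simp [ev]

lemma ev_false {F : Finset (Finset (Lit R Y V))} {A : R → Option Y} {e : V → Bool} :
    ev F A e = false ↔ ∀ t ∈ F, ¬ Sat A e t := by
  simp [ev]

namespace Sys

variable (S : Sys R Y V)

lemma fl_zero (A : R → Option Y) (e : V → Bool) (x : R) : S.fl A e x 0 = e := rfl

lemma fl_succ_eq {A : R → Option Y} {e : V → Bool} {x : R} {i : ℕ} {v : V}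
    (h : S.lv v = i + 1) : S.fl A e x (i + 1) v =
      xor (e v) (xor (S.b A e v) (S.b (cut A x) (S.fl A e x i) v)) := by
  show (if S.lv v = i + 1 then _ else _) = _
  rw [if_pos h]

lemma fl_succ_ne {A : R → Option Y} {e : V → Bool} {x : R} {i : ℕ} {v : V}
    (h : S.lv v ≠ i + 1) : S.fl A e x (i + 1) v = S.fl A e x i v := by
  show (if S.lv v = i + 1 then _ else _) = _
  rw [if_neg h]

/-- Bits of level greater than `i`, or of level `0`, are not changed by `fl i`. -/
lemma fl_of_lt {A : R → Option Y} {e : V → Bool} {x : R} {v : V} :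
    ∀ {i : ℕ}, (i < S.lv v ∨ S.lv v = 0) → S.fl A e x i v = e v := by
  intro i
  induction i with
  | zero => intro _; rfl
  | succ i ih =>
    intro h
    rw [fl_succ_ne]
    · apply ih
      omega
    · omega

lemma fl_of_le {A : R → Option Y} {e : V → Bool} {x : R} {v : V} :
    ∀ {i : ℕ}, S.lv v ≤ i → S.fl A e x i v = S.fl A e x (S.lv v) v := by
  intro i
  induction i with
  | zero =>
    intro h
    have : S.lv v = 0 := by omega
    rw [this]
  | succ i ih =>
    intro h
    rcases Nat.lt_or_ge i (S.lv v) with h1 | h1
    · have : S.lv v = i + 1 := by omega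
      rw [this]
    · rw [fl_succ_ne, ih h1]
      omega

lemma fl_delta {A : R → Option Y} {e : V → Bool} {x : R} {v : V} {i : ℕ} (h : S.lv v ≤ i) :
    S.fl A e x i v = xor (e v) (S.delta A e x v) := by
  rw [S.fl_of_le h, delta]
  simp

lemma delta_zero {A : R → Option Y} {e : V → Bool} {x : R} {v : V} (h : S.lv v = 0) :
    S.delta A e x v = false := by
  rw [delta, S.fl_of_lt (Or.inr h)]
  simp

lemma delta_succ {A : R → Option Y} {e : V → Bool} {x : R} {v : V} {i : ℕ} (h : S.lv v = i + 1) :
    S.delta A e x v = xor (S.b A e v) (S.b (cut A x) (S.fl A e x i) v) := by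
  rw [delta, h, S.fl_succ_eq h]
  simp

lemma b_congr {A : R → Option Y} {e e' : V → Bool} {v : V}
    (h : ∀ v', S.lv v' < S.lv v → e v' = e' v') : S.b A e v = S.b A e' v := by
  apply ev_congr
  intro t ht q hq
  rcases hq1 : q.1 with p | v'
  · rfl
  · simp only [val_inr]
    exact h v' (S.below v t ht q hq v' hq1)

lemma fl_congr {A : R → Option Y} {e e' : V → Bool} {x : R} : ∀ {i : ℕ},
    (∀ v', S.lv v' ≤ i → e v' = e' v') →
    ∀ v, S.lv v ≤ i → S.fl A e x i v = S.fl A e' x i v := by
  intro i
  induction i with
  | zero =>
    intro h v hv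
    exact h v hv
  | succ i ih =>
    intro h v hv
    by_cases hv1 : S.lv v = i + 1
    · rw [S.fl_succ_eq hv1, S.fl_succ_eq hv1, h v hv]
      have h1 : S.b A e v = S.b A e' v := S.b_congr fun v' hv' => h v' (by omega)
      have h2 : S.b (cut A x) (S.fl A e x i) v = S.b (cut A x) (S.fl A e' x i) v :=
        S.b_congr fun v' hv' => ih (fun v'' hv'' => h v'' (by omega)) v' (by omega)
      rw [h1, h2]
    · rw [S.fl_succ_ne hv1, S.fl_succ_ne hv1]
      exact ih (fun v'' hv'' => h v'' (by omega)) v (by omega)

lemma delta_congr {A : R → Option Y} {e e' : V → Bool} {x : R} {v : V}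
    (h : ∀ v', S.lv v' < S.lv v → e v' = e' v') : S.delta A e x v = S.delta A e' x v := by
  rcases Nat.eq_zero_or_pos (S.lv v) with h0 | h0
  · rw [S.delta_zero h0, S.delta_zero h0]
  · obtain ⟨i, hi⟩ : ∃ i, S.lv v = i + 1 := ⟨S.lv v - 1, by omega⟩
    rw [S.delta_succ hi, S.delta_succ hi, S.b_congr h]
    have h2 : S.b (cut A x) (S.fl A e x i) v = S.b (cut A x) (S.fl A e' x i) v :=
      S.b_congr fun v' hv' => S.fl_congr (fun v'' hv'' => h v'' (by omega)) v' (by omega)
    rw [h2]

end Sys

/-- The table with one zero in every row. -/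
def so (A : R → Y) : R → Option Y := fun x => some (A x)

/-- The table with one zero in every row outside `J`. -/
noncomputable def hide (A : R → Y) (J : Finset R) : R → Option Y :=
  fun x => if x ∈ J then none else some (A x)

lemma hide_empty (A : R → Y) : hide A ∅ = so A := by
  funext x
  simp [hide, so]

lemma hide_singleton (A : R → Y) (x : R) : hide A {x} = cut (so A) x := by
  funext x'
  unfold hide cut so
  by_cases h : x' = x
  · subst h
    simp
  · rw [Function.update_of_ne h]
    simp [h]

lemma cut_of_ne {A : R → Option Y} {x x' : R} (h : x' ≠ x) : cut A x x' = A x' := by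
  unfold cut
  rw [Function.update_of_ne h]

lemma cut_self {A : R → Option Y} {x : R} : cut A x x = none := by
  unfold cut
  rw [Function.update_self]

/-- Parity. -/
noncomputable def par (J : Finset R) (f : R → Bool) : Bool :=
  decide (Odd (J.filter (fun j => f j = true)).card)

lemma par_true {J : Finset R} {f : R → Bool} (h : par J f = true) : ∃ j ∈ J, f j = true := by
  unfold par at h
  rw [decide_eq_true_iff] at h
  have hne : (J.filter (fun j => f j = true)).Nonempty := by
    rw [Finset.nonempty_iff_ne_empty]
    intro he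
    rw [he] at h
    simp at h
  obtain ⟨j, hj⟩ := hne
  exact ⟨j, (Finset.mem_filter.mp hj).1, (Finset.mem_filter.mp hj).2⟩

lemma par_erase {J : Finset R} {f : R → Bool} {j : R} (hj : j ∈ J) :
    xor (f j) (par (J.erase j) f) = par J f := by
  unfold par
  have h1 : J = insert j (J.erase j) := (Finset.insert_erase hj).symm
  by_cases hf : f j = true
  · have h2 : (J.filter (fun j => f j = true)).card
        = ((J.erase j).filter (fun j => f j = true)).card + 1 := by
      conv_lhs => rw [h1]
      rw [Finset.filter_insert, if_pos hf, Finset.card_insert_of_notMem]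
      simp
    rw [h2, hf]
    by_cases h3 : Odd ((J.erase j).filter (fun j => f j = true)).card
    · have h4 : ¬ Odd (((J.erase j).filter (fun j => f j = true)).card + 1) := by
        rw [Nat.odd_add_one]
        exact fun h => h h3
      simp [h3, h4]
    · have h4 : Odd (((J.erase j).filter (fun j => f j = true)).card + 1) := by
        rw [Nat.odd_add_one]
        exact h3
      simp [h3, h4]
  · have h2 : (J.filter (fun j => f j = true))
        = ((J.erase j).filter (fun j => f j = true)) := by
      conv_lhs => rw [h1]
      rw [Finset.filter_insert, if_neg hf]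
    rw [h2]
    have hf' : f j = false := by simpa using hf
    rw [hf']
    simp

lemma par_empty (f : R → Bool) : par (∅ : Finset R) f = false := by
  simp [par]

lemma par_single {J : Finset R} {f : R → Bool} {j : R} (hj : j ∈ J)
    (h : ∀ j' ∈ J, j' ≠ j → f j' = false) : par J f = f j := by
  rw [← par_erase hj]
  have : par (J.erase j) f = false := by
    by_contra hc
    rw [Bool.not_eq_false] at hc
    obtain ⟨j', hj', hf⟩ := par_true hc
    rw [h j' (Finset.mem_of_mem_erase hj') (Finset.ne_of_mem_erase hj')] at hf
    exact absurd hf (by simp)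
  rw [this]
  simp

end Pool.Agent.H77.NB
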