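import Pool.Agent.H77.NB.Step
import Pool.Agent.H77.NB.Arith

/-!
# The ideal world: few rows change a bit

For uniform tables with one zero per row and uniform bits, up to a fraction `|V| / 2 ^ k` of the
states, every bit of level at most `L` is changed by at most `(w + k + n + 2) ^ c` rows, where `c`
depends only on `L`.
-/

open scoped Classical

namespace Pool.Agent.H77.NB

variable {R Y V : Type}

lemma bad_mono [Fintype R] [Fintype Y] [Fintype V] (S : Sys R Y V)
    (F : Finset (Finset (Lit R Y V))) (P i : ℕ) {K K' : ℕ} (h : K ≤ K') :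
    S.bad F P i K' ⊆ S.bad F P i K := by
  intro z hz
  simp only [Sys.bad, Finset.mem_filter, Finset.mem_univ, true_and] at hz ⊢
  exact ⟨hz.1, hz.2.1, h.trans hz.2.2⟩

/-- For every DNF of width `w`: the good states in which it is false and becomes true for
`(w + k + n + P + 2) ^ c` rows are rare. -/
theorem yes_rare (i : ℕ) : ∃ c : ℕ, ∀ (R Y V : Type) [Fintype R] [Fintype Y] [Fintype V]
    (S : Sys R Y V) (F : Finset (Finset (Lit R Y V))) (w n k P : ℕ), (∀ t ∈ F, t.card ≤ w) →
    Fintype.card R ≤ Fintype.card Y → Fintype.card R ≤ 2 ^ n →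
    (S.bad F P i ((w + k + n + P + 2) ^ c)).card * 2 ^ k ≤
      Fintype.card ((R → Y) × (V → Bool)) := by
  induction i with
  | zero =>
    refine ⟨5, ?_⟩
    intro R Y V _ _ _ S F w n k P hF hRY _
    have h6 := base_bad S F w hF hRY P (2 * (w + 1) * k + k) k
    have h7 := pow_le_choose (w + 1) k (2 * (w + 1) * k + k) le_rfl
    have h8 := Finset.card_le_card (bad_mono S F P 0 (th0 w k n P))
    exact (Nat.mul_le_mul_right _ h8).trans (fin0 _ _ w k _ h6 h7)
  | succ i ih =>
    obtain ⟨c, hc⟩ := ih
    refine ⟨2 * c + 10, ?_⟩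
    intro R Y V _ _ _ S F w n k P hF hRY hRn
    have h10 := S.step_bad F w hF i P ((w + (n + 1) * k + n + P + 2) ^ c)
      (2 * (2 * (w * P + (w + (n + 1) * k + n + P + 2) ^ c + 1)) * k + k) k
      (w * P + (w + (n + 1) * k + n + P + 2) ^ c + 1) (by omega) (by omega)
    have h11 := pow_le_choose (2 * (w * P + (w + (n + 1) * k + n + P + 2) ^ c + 1)) k
      (2 * (2 * (w * P + (w + (n + 1) * k + n + P + 2) ^ c + 1)) * k + k) le_rfl
    have h12 := Finset.card_le_card (bad_mono S F P (i + 1) (th1 w k n P c))
    have h13 := hc R Y V S F w n ((n + 1) * k) P hF hRY hRn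
    have h15 := le_trans (Nat.mul_le_mul_left
      (S.bad F P i ((w + (n + 1) * k + n + P + 2) ^ c)).card
      (choose_two (Fintype.card R) n k hRn)) h13
    exact (Nat.mul_le_mul_right _ h12).trans
      (fin1 _ _ _ _ k _ (by omega) (Finset.card_le_univ _) h10 h11 h15)

/-- Rows that change a bit of level at most `l` in the term `t`. -/
lemma touch_card [Fintype R] (S : Sys R Y V) {l P : ℕ} {t : Finset (Lit R Y V)}
    {A : R → Option Y} {e : V → Bool} (hg : S.good P l A e) :
    (Finset.univ.filter (fun x => ∃ q ∈ t, ∃ v, q.1 = Sum.inr v ∧ S.lv v ≤ l ∧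
      S.delta A e x v = true)).card ≤ t.card * P := by
  have h1 : Finset.univ.filter (fun x => ∃ q ∈ t, ∃ v, q.1 = Sum.inr v ∧ S.lv v ≤ l ∧
      S.delta A e x v = true) ⊆ t.biUnion (fun q => Finset.univ.filter (fun x => ∃ v,
      q.1 = Sum.inr v ∧ S.lv v ≤ l ∧ S.delta A e x v = true)) := by
    intro x hx
    simp only [Finset.mem_filter, Finset.mem_univ, true_and] at hx
    obtain ⟨q, hq, v, h⟩ := hx
    rw [Finset.mem_biUnion]
    refine ⟨q, hq, ?_⟩
    simp only [Finset.mem_filter, Finset.mem_univ, true_and]
    exact ⟨v, h⟩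
  refine (Finset.card_le_card h1).trans (Finset.card_biUnion_le_card_mul _ _ _ ?_)
  intro q _
  rcases Finset.eq_empty_or_nonempty (Finset.univ.filter (fun x => ∃ v,
      q.1 = Sum.inr v ∧ S.lv v ≤ l ∧ S.delta A e x v = true)) with he | ⟨x, hx⟩
  · rw [he]
    simp
  · simp only [Finset.mem_filter, Finset.mem_univ, true_and] at hx
    obtain ⟨v, hv, hlv, _⟩ := hx
    refine (Finset.card_le_card ?_).trans (hg v hlv)
    intro x' hx'
    simp only [Finset.mem_filter, Finset.mem_univ, true_and] at hx'
    obtain ⟨v', hv', _, hd⟩ := hx'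
    rw [hv] at hv'
    have : v = v' := Sum.inr_injective hv'
    subst this
    simp only [Sys.sens, Finset.mem_filter, Finset.mem_univ, true_and]
    exact hd

/-- If a bit with true DNF is changed by the row `x`, then `x` touches every satisfied term. -/
lemma sens_true [Fintype R] (S : Sys R Y V) {l P : ℕ} {A : R → Option Y} {e : V → Bool} {v : V}
    (hg : S.good P l A e) (hv : S.lv v = l + 1) (hb : S.b A e v = true) :
    (S.sens A e v).card ≤ S.w + S.w * P := by
  obtain ⟨t, ht, hts⟩ := ev_true.mp hb
  have hsub : S.sens A e v ⊆ rows t ∪ Finset.univ.filter (fun x => ∃ q ∈ t, ∃ v,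
      q.1 = Sum.inr v ∧ S.lv v ≤ l ∧ S.delta A e x v = true) := by
    intro x hx
    simp only [Sys.sens, Finset.mem_filter, Finset.mem_univ, true_and] at hx
    rw [S.delta_succ hv, hb] at hx
    have hx' : S.b (cut A x) (S.fl A e x l) v = false := by simpa using hx
    have hnt : ¬ Sat (cut A x) (S.fl A e x l) t := ev_false.mp hx' t ht
    unfold Sat at hnt
    push Not at hnt
    obtain ⟨q, hq, hqn⟩ := hnt
    have hqs := hts q hq
    rw [← hqs] at hqn
    rw [Finset.mem_union]
    rcases hq1 : q.1 with p | v'
    · left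
      have hp : p.1 = x := by
        by_contra hc
        apply hqn
        rw [hq1, val_inl, val_inl, cut_of_ne hc]
      rw [← hp]
      exact mem_rows hq hq1
    · right
      simp only [Finset.mem_filter, Finset.mem_univ, true_and]
      have hlv : S.lv v' ≤ l := by
        have := S.below v t ht q hq v' hq1
        omega
      refine ⟨q, hq, v', hq1, hlv, ?_⟩
      rw [hq1, val_inr, val_inr, S.fl_delta hlv] at hqn
      by_contra hc
      rw [Bool.not_eq_true] at hc
      rw [hc] at hqn
      simp at hqn
  have h1 := S.width v t ht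
  calc (S.sens A e v).card ≤ _ := Finset.card_le_card hsub
    _ ≤ _ := Finset.card_union_le _ _
    _ ≤ S.w + S.w * P := Nat.add_le_add ((rows_card t).trans h1)
      ((touch_card S hg).trans (Nat.mul_le_mul_right _ h1))

/-- **The ideal world.** Up to a fraction `|V| / 2 ^ k` of the states, every bit of level at most `L`
is changed by at most `(w + k + n + 2) ^ c` rows. -/
theorem sens_rare (L : ℕ) : ∃ c : ℕ, ∀ (R Y V : Type) [Fintype R] [Fintype Y] [Fintype V]
    (S : Sys R Y V) (n k : ℕ), Fintype.card R ≤ Fintype.card Y → Fintype.card R ≤ 2 ^ n →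
    (Finset.univ.filter (fun z : (R → Y) × (V → Bool) =>
      ¬ S.good ((S.w + k + n + 2) ^ c) L (so z.1) z.2)).card * 2 ^ k ≤
      (Finset.univ.filter (fun v => S.lv v ≤ L)).card *
        Fintype.card ((R → Y) × (V → Bool)) := by
  induction L with
  | zero =>
    refine ⟨0, ?_⟩
    intro R Y V _ _ _ S n k _ _
    have : Finset.univ.filter (fun z : (R → Y) × (V → Bool) =>
      ¬ S.good ((S.w + k + n + 2) ^ 0) 0 (so z.1) z.2) = ∅ := by
      rw [Finset.filter_eq_empty_iff]
      intro z _
      rw [not_not]
      intro v hv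
      have : S.sens (so z.1) z.2 v = ∅ := by
        rw [Sys.sens, Finset.filter_eq_empty_iff]
        intro x _
        rw [S.delta_zero (by omega)]
        simp
      rw [this]
      simp
    rw [this]
    simp
  | succ L ih =>
    obtain ⟨c, hc⟩ := ih
    obtain ⟨c2, hc2⟩ := yes_rare L
    refine ⟨(c + 2) * (c2 + 1), ?_⟩
    intro R Y V _ _ _ S n k hRY hRn
    have hm2 : 2 ≤ S.w + k + n + 2 := by omega
    have hK' : (S.w + k + n + (S.w + k + n + 2) ^ c + 2) ^ c2
        ≤ (S.w + k + n + 2) ^ ((c + 2) * (c2 + 1)) := by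
      have : S.w + k + n + (S.w + k + n + 2) ^ c + 2
          = (S.w + k + n + 2) + (S.w + k + n + 2) ^ c := by ring
      rw [this]
      exact th4 _ c c2 hm2
    have hA1' : S.w + S.w * (S.w + k + n + 2) ^ c ≤
        (S.w + k + n + 2) ^ ((c + 2) * (c2 + 1)) :=
      (th3 _ S.w c hm2 (by omega)).trans (th5 _ c c2 hm2)
    have hPP' : (S.w + k + n + 2) ^ c ≤ (S.w + k + n + 2) ^ ((c + 2) * (c2 + 1)) :=
      th6 _ c c2 hm2
    have hc' := hc R Y V S n k hRY hRn
    have hc2' := fun v => hc2 R Y V S (S.tm v) S.w n k ((S.w + k + n + 2) ^ c) (S.width v) hRY hRn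
    generalize (S.w + k + n + (S.w + k + n + 2) ^ c + 2) ^ c2 = K at hK' hc2'
    generalize (S.w + k + n + 2) ^ ((c + 2) * (c2 + 1)) = P' at hK' hA1' hPP' ⊢
    generalize (S.w + k + n + 2) ^ c = P at hA1' hPP' hc' hc2'
    have hsub : Finset.univ.filter (fun z : (R → Y) × (V → Bool) =>
        ¬ S.good P' (L + 1) (so z.1) z.2) ⊆
        Finset.univ.filter (fun z : (R → Y) × (V → Bool) => ¬ S.good P L (so z.1) z.2) ∪
        (Finset.univ.filter (fun v => S.lv v = L + 1)).biUnion (fun v =>
          S.bad (S.tm v) P L K) := by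
      intro z hz
      simp only [Finset.mem_filter, Finset.mem_univ, true_and] at hz
      rw [Finset.mem_union]
      by_contra hcon
      push Not at hcon
      obtain ⟨h1, h2⟩ := hcon
      simp only [Finset.mem_filter, Finset.mem_univ, true_and, not_not] at h1
      apply hz
      intro v hv
      rcases Nat.lt_or_ge L (S.lv v) with h3 | h3
      · have hv' : S.lv v = L + 1 := by omega
        by_cases hb : S.b (so z.1) z.2 v = true
        · exact (sens_true S h1 hv' hb).trans hA1'
        · have hb' : S.b (so z.1) z.2 v = false := by simpa using hb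
          have h4 : S.sens (so z.1) z.2 v = S.yes (S.tm v) (so z.1) z.2 L := by
            unfold Sys.sens Sys.yes
            congr 1
            funext x
            rw [S.delta_succ hv', hb']
            simp [Sys.b]
          rw [h4]
          by_contra hc'
          push Not at hc'
          apply h2
          rw [Finset.mem_biUnion]
          refine ⟨v, by simp [hv'], ?_⟩
          simp only [Sys.bad, Finset.mem_filter, Finset.mem_univ, true_and]
          exact ⟨hb', h1, by omega⟩
      · exact (h1 v h3).trans hPP'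
    have hcnt : (Finset.univ.filter (fun v => S.lv v ≤ L + 1)).card =
        (Finset.univ.filter (fun v => S.lv v ≤ L)).card
          + (Finset.univ.filter (fun v => S.lv v = L + 1)).card := by
      rw [← Finset.card_union_of_disjoint]
      · congr 1
        ext v
        simp only [Finset.mem_filter, Finset.mem_univ, true_and, Finset.mem_union]
        omega
      · rw [Finset.disjoint_left]
        intro v h1 h2
        simp only [Finset.mem_filter, Finset.mem_univ, true_and] at h1 h2
        omega
    calc (Finset.univ.filter (fun z : (R → Y) × (V → Bool) =>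
        ¬ S.good P' (L + 1) (so z.1) z.2)).card * 2 ^ k
        ≤ ((Finset.univ.filter (fun z : (R → Y) × (V → Bool) =>
            ¬ S.good P L (so z.1) z.2)).card +
          ∑ v ∈ Finset.univ.filter (fun v => S.lv v = L + 1), (S.bad (S.tm v) P L K).card)
            * 2 ^ k := by
          apply Nat.mul_le_mul_right
          refine (Finset.card_le_card hsub).trans ((Finset.card_union_le _ _).trans ?_)
          exact Nat.add_le_add_left Finset.card_biUnion_le _
      _ = (Finset.univ.filter (fun z : (R → Y) × (V → Bool) =>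
            ¬ S.good P L (so z.1) z.2)).card * 2 ^ k +
          ∑ v ∈ Finset.univ.filter (fun v => S.lv v = L + 1),
            (S.bad (S.tm v) P L K).card * 2 ^ k := by rw [add_mul, Finset.sum_mul]
      _ ≤ (Finset.univ.filter (fun v => S.lv v ≤ L)).card *
            Fintype.card ((R → Y) × (V → Bool)) +
          ∑ v ∈ Finset.univ.filter (fun v => S.lv v = L + 1),
            Fintype.card ((R → Y) × (V → Bool)) :=
          Nat.add_le_add hc' (Finset.sum_le_sum fun v _ => hc2' v)
      _ = _ := by
          rw [Finset.sum_const, smul_eq_mul, hcnt]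
          ring

/-- **The ideal world**, all levels bounded by `L`. -/
theorem ideal_world (L : ℕ) : ∃ c : ℕ, ∀ (R Y V : Type) [Fintype R] [Fintype Y] [Fintype V]
    (S : Sys R Y V) (n k : ℕ), Fintype.card R ≤ Fintype.card Y → Fintype.card R ≤ 2 ^ n →
    (∀ v, S.lv v ≤ L) →
    (Finset.univ.filter (fun z : (R → Y) × (V → Bool) => ∃ v, (S.w + k + n + 2) ^ c <
      (Finset.univ.filter (fun x => S.delta (fun x => some (z.1 x)) z.2 x v = true)).card)).card
        * 2 ^ k ≤
      Fintype.card V * (Fintype.card Y ^ Fintype.card R * 2 ^ Fintype.card V) := by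
  obtain ⟨c, hc⟩ := sens_rare L
  refine ⟨c, ?_⟩
  intro R Y V _ _ _ S n k hRY hRn hL
  have h1 := hc R Y V S n k hRY hRn
  have h2 : (Finset.univ.filter (fun v => S.lv v ≤ L)).card = Fintype.card V := by
    rw [Finset.filter_true_of_mem (fun v _ => hL v), Finset.card_univ]
  have h3 : Fintype.card ((R → Y) × (V → Bool))
      = Fintype.card Y ^ Fintype.card R * 2 ^ Fintype.card V := by
    rw [Fintype.card_prod, Fintype.card_fun, Fintype.card_fun, Fintype.card_bool]
  rw [h2, h3] at h1
  refine le_trans (Nat.mul_le_mul_right _ (Finset.card_le_card ?_)) h1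
  intro z hz
  simp only [Finset.mem_filter, Finset.mem_univ, true_and] at hz ⊢
  obtain ⟨v, hv⟩ := hz
  intro hg
  have := hg v (hL v)
  unfold Sys.sens so at this
  omega

end Pool.Agent.H77.NB
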