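import Pool.Agent.H77.NB.Base

/-!
# One step of the induction in the ideal world
-/

open scoped Classical

namespace Pool.Agent.H77.NB

variable {R Y V : Type}

/-- The rows which change the bit `v`. -/
noncomputable def Sys.sens [Fintype R] (S : Sys R Y V) (A : R → Option Y) (e : V → Bool) (v : V) : Finset R :=
  Finset.univ.filter (fun x => S.delta A e x v = true)

/-- The rows which make `F` true, when only the bits of level at most `i` are updated. -/
noncomputable def Sys.yes [Fintype R] (S : Sys R Y V) (F : Finset (Finset (Lit R Y V))) (A : R → Option Y)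
    (e : V → Bool) (i : ℕ) : Finset R :=
  Finset.univ.filter (fun x => ev F (cut A x) (S.fl A e x i) = true)

/-- All bits of level at most `i` have sensitivity at most `P`. -/
def Sys.good [Fintype R] (S : Sys R Y V) (P i : ℕ) (A : R → Option Y) (e : V → Bool) : Prop :=
  ∀ v, S.lv v ≤ i → (S.sens A e v).card ≤ P

/-- Good states in which `F` is false and becomes true for `K` rows. -/
noncomputable def Sys.bad [Fintype R] [Fintype Y] [Fintype V] (S : Sys R Y V) (F : Finset (Finset (Lit R Y V))) (P i K : ℕ) :
    Finset ((R → Y) × (V → Bool)) :=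
  Finset.univ.filter (fun z => ev F (so z.1) z.2 = false ∧ S.good P i (so z.1) z.2 ∧
    K ≤ (S.yes F (so z.1) z.2 i).card)

/-- The base case. -/
lemma base_bad [Fintype R] [Fintype Y] [Fintype V] (S : Sys R Y V) (F : Finset (Finset (Lit R Y V))) (w : ℕ)
    (hF : ∀ t ∈ F, t.card ≤ w) (hRY : Fintype.card R ≤ Fintype.card Y) (P K k : ℕ) :
    (S.bad F P 0 ((2 * w + 1) * K)).card * K.choose k ≤
      Fintype.card ((R → Y) × (V → Bool)) * w ^ k := by
  have h1 : S.bad F P 0 ((2 * w + 1) * K) ⊆ (Finset.univ : Finset (V → Bool)).biUnion (fun e =>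
      (Finset.univ.filter (fun A : R → Y => ev F (so A) e = false ∧ (2 * w + 1) * K ≤
        (Finset.univ.filter (fun x => ev F (cut (so A) x) e = true)).card)).image
        (fun A => (A, e))) := by
    rintro ⟨A, e⟩ hz
    simp only [Sys.bad, Finset.mem_filter, Finset.mem_univ, true_and] at hz
    rw [Finset.mem_biUnion]
    refine ⟨e, Finset.mem_univ _, ?_⟩
    rw [Finset.mem_image]
    refine ⟨A, ?_, rfl⟩
    simp only [Finset.mem_filter, Finset.mem_univ, true_and]
    exact ⟨hz.1, hz.2.2⟩
  have h2 := (Finset.card_le_card h1).trans Finset.card_biUnion_le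
  calc (S.bad F P 0 ((2 * w + 1) * K)).card * K.choose k
      ≤ (∑ e : V → Bool, ((Finset.univ.filter (fun A : R → Y => ev F (so A) e = false ∧
        (2 * w + 1) * K ≤ (Finset.univ.filter (fun x => ev F (cut (so A) x) e = true)).card)).image
        (fun A => (A, e))).card) * K.choose k := Nat.mul_le_mul_right _ h2
    _ ≤ ∑ e : V → Bool, Fintype.card Y ^ Fintype.card R * w ^ k := by
      rw [Finset.sum_mul]
      refine Finset.sum_le_sum fun e _ => ?_
      exact le_trans (Nat.mul_le_mul_right _ Finset.card_image_le)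
        (base_tables F w hF e hRY K k)
    _ = _ := by
      rw [Finset.sum_const, smul_eq_mul, Finset.card_univ, Fintype.card_prod,
        Fintype.card_fun (α := R) (β := Y)]
      ring

/-- Change the bits of level `i + 1` by the sum of the changes for the rows in `J`. -/
noncomputable def Sys.flip (S : Sys R Y V) (i : ℕ) (J : Finset R) (z : (R → Y) × (V → Bool)) :
    (R → Y) × (V → Bool) :=
  (z.1, fun v => if S.lv v = i + 1 then
    xor (z.2 v) (par J (fun j => S.delta (so z.1) z.2 j v)) else z.2 v)

namespace Sys

variable (S : Sys R Y V)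

lemma flip_ne {i : ℕ} {J : Finset R} {z : (R → Y) × (V → Bool)} {v : V} (h : S.lv v ≠ i + 1) :
    (S.flip i J z).2 v = z.2 v := by
  unfold flip
  simp [h]

lemma flip_eq {i : ℕ} {J : Finset R} {z : (R → Y) × (V → Bool)} {v : V} (h : S.lv v = i + 1) :
    (S.flip i J z).2 v = xor (z.2 v) (par J (fun j => S.delta (so z.1) z.2 j v)) := by
  unfold flip
  simp [h]

lemma flip_delta {i : ℕ} {J : Finset R} {z : (R → Y) × (V → Bool)} {v : V} {x : R}
    (h : S.lv v ≤ i + 1) :
    S.delta (so z.1) (S.flip i J z).2 x v = S.delta (so z.1) z.2 x v := by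
  apply S.delta_congr
  intro v' hv'
  apply S.flip_ne
  omega

lemma flip_flip {i : ℕ} {J : Finset R} {z : (R → Y) × (V → Bool)} :
    S.flip i J (S.flip i J z) = z := by
  apply Prod.ext
  · rfl
  · funext v
    by_cases h : S.lv v = i + 1
    · rw [S.flip_eq h]
      have : (fun j => S.delta (so (S.flip i J z).1) (S.flip i J z).2 j v)
          = (fun j => S.delta (so z.1) z.2 j v) := by
        funext j
        exact S.flip_delta h.le
      rw [this, S.flip_eq h]
      simp
    · rw [S.flip_ne h, S.flip_ne h]

lemma flip_erase {i : ℕ} {J : Finset R} {j : R} {z : (R → Y) × (V → Bool)} (hj : j ∈ J) :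
    S.flip i (J.erase j) (S.flip i {j} z) = S.flip i J z := by
  apply Prod.ext
  · rfl
  · funext v
    by_cases h : S.lv v = i + 1
    · rw [S.flip_eq h]
      have : (fun j' => S.delta (so (S.flip i {j} z).1) (S.flip i {j} z).2 j' v)
          = (fun j' => S.delta (so z.1) z.2 j' v) := by
        funext j'
        exact S.flip_delta h.le
      rw [this, S.flip_eq h, S.flip_eq h, ← par_erase hj]
      rw [par_single (Finset.mem_singleton_self j)
        (fun j' hj' hne => absurd (Finset.mem_singleton.mp hj') hne)]
      rw [Bool.xor_assoc]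
    · rw [S.flip_ne h, S.flip_ne h, S.flip_ne h]

/-- The rows which change a bit of level `l` in the term `t`. -/
noncomputable def near [Fintype R] (l : ℕ) (t : Finset (Lit R Y V)) (A : R → Option Y) (e : V → Bool) :
    Finset R :=
  Finset.univ.filter (fun x => ∃ q ∈ t, ∃ v, q.1 = Sum.inr v ∧ S.lv v = l ∧
    S.delta A e x v = true)

lemma near_card [Fintype R] {l i P : ℕ} {t : Finset (Lit R Y V)} {A : R → Option Y} {e : V → Bool}
    (hg : S.good P i A e) (hl : l ≤ i) : (S.near l t A e).card ≤ t.card * P := by
  have h1 : S.near l t A e ⊆ t.biUnion (fun q => Finset.univ.filter (fun x => ∃ v,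
      q.1 = Sum.inr v ∧ S.lv v = l ∧ S.delta A e x v = true)) := by
    intro x hx
    simp only [near, Finset.mem_filter, Finset.mem_univ, true_and] at hx
    obtain ⟨q, hq, v, h⟩ := hx
    rw [Finset.mem_biUnion]
    refine ⟨q, hq, ?_⟩
    simp only [Finset.mem_filter, Finset.mem_univ, true_and]
    exact ⟨v, h⟩
  refine (Finset.card_le_card h1).trans (Finset.card_biUnion_le_card_mul _ _ _ ?_)
  intro q _
  rcases Finset.eq_empty_or_nonempty (Finset.univ.filter (fun x => ∃ v,
      q.1 = Sum.inr v ∧ S.lv v = l ∧ S.delta A e x v = true)) with he | ⟨x, hx⟩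
  · rw [he]
    simp
  · simp only [Finset.mem_filter, Finset.mem_univ, true_and] at hx
    obtain ⟨v, hv, hlv, _⟩ := hx
    refine (Finset.card_le_card ?_).trans (hg v (by omega))
    intro x' hx'
    simp only [Finset.mem_filter, Finset.mem_univ, true_and] at hx'
    obtain ⟨v', hv', _, hd⟩ := hx'
    rw [hv] at hv'
    have : v = v' := Sum.inr_injective hv'
    subst this
    simp only [sens, Finset.mem_filter, Finset.mem_univ, true_and]
    exact hd

/-- The inductive step. -/
lemma step_bad [Fintype R] [Fintype Y] [Fintype V] (F : Finset (Finset (Lit R Y V))) (w : ℕ) (hF : ∀ t ∈ F, t.card ≤ w)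
    (i P K0 K k M : ℕ) (hM1 : w * P ≤ M) (hM2 : K0 ≤ M) :
    (S.bad F P (i + 1) ((2 * (w * P) + 1) * K)).card * K.choose k ≤
      Fintype.card ((R → Y) × (V → Bool)) * M ^ k
        + (S.bad F P i K0).card * ((Fintype.card R).choose k * 2 ^ k) := by
  -- terms
  have hT : ∀ (z : (R → Y) × (V → Bool)) (x : R), ∃ t : Finset (Lit R Y V), t.card ≤ w ∧
      (ev F (cut (so z.1) x) (S.fl (so z.1) z.2 x (i + 1)) = true →
        t ∈ F ∧ Sat (cut (so z.1) x) (S.fl (so z.1) z.2 x (i + 1)) t) := by
    intro z x
    by_cases hx : ev F (cut (so z.1) x) (S.fl (so z.1) z.2 x (i + 1)) = true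
    · obtain ⟨t, ht, hs⟩ := ev_true.mp hx
      exact ⟨t, hF t ht, fun _ => ⟨ht, hs⟩⟩
    · exact ⟨∅, by simp, fun h => absurd h hx⟩
  choose T hTw hT using hT
  have hX : ∀ z : (R → Y) × (V → Bool), ∃ I : Finset R,
      z ∈ S.bad F P (i + 1) ((2 * (w * P) + 1) * K) →
      I ⊆ S.yes F (so z.1) z.2 (i + 1) ∧ K ≤ I.card ∧ ∀ x ∈ I, ∀ y ∈ I, x ≠ y →
        y ∉ S.near (i + 1) (T z x) (so z.1) z.2 := by
    intro z
    by_cases hz : z ∈ S.bad F P (i + 1) ((2 * (w * P) + 1) * K)
    · have hz' := hz
      simp only [bad, Finset.mem_filter, Finset.mem_univ, true_and] at hz'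
      obtain ⟨_, hg, hK⟩ := hz'
      obtain ⟨I, hIX, hIc, hIi⟩ := exists_indep
        (fun x => S.near (i + 1) (T z x) (so z.1) z.2) (w * P) _
        (S.yes F (so z.1) z.2 (i + 1)) rfl (fun x _ =>
          (S.near_card hg le_rfl).trans (Nat.mul_le_mul_right _ (hTw z x)))
      exact ⟨I, fun _ => ⟨hIX, Nat.le_of_mul_le_mul_left (hK.trans hIc) (by omega), hIi⟩⟩
    · exact ⟨∅, fun h => absurd h hz⟩
  choose X hX using hX
  -- first satisfied term
  have hU : ∀ u : (R → Y) × (V → Bool), ∃ t : Finset (Lit R Y V), t.card ≤ w ∧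
      (ev F (so u.1) u.2 = true → t ∈ F ∧ Sat (so u.1) u.2 t) := by
    intro u
    by_cases hx : ev F (so u.1) u.2 = true
    · obtain ⟨t, ht, hs⟩ := ev_true.mp hx
      exact ⟨t, hF t ht, fun _ => ⟨ht, hs⟩⟩
    · exact ⟨∅, by simp, fun h => absurd h hx⟩
  choose U hUw hU using hU
  refine decode_count (S.flip i) (fun J j z hj => S.flip_erase hj) (fun J z => S.flip_flip)
    (S.bad F P (i + 1) ((2 * (w * P) + 1) * K)) (S.bad F P i K0) X
    (fun u => if S.good P (i + 1) (so u.1) u.2 then
      (if ev F (so u.1) u.2 = true then S.near (i + 1) (U u) (so u.1) u.2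
        else S.yes F (so u.1) u.2 i) else ∅) M K k ?_ ?_ ?_
  · intro u hu
    by_cases hg : S.good P (i + 1) (so u.1) u.2
    · by_cases he : ev F (so u.1) u.2 = true
      · simp only [hg, he, if_true]
        exact (S.near_card hg le_rfl).trans ((Nat.mul_le_mul_right _ (hUw u)).trans hM1)
      · simp only [hg, he, if_true]
        by_contra hc
        push Not at hc
        apply hu
        simp only [bad, Finset.mem_filter, Finset.mem_univ, true_and]
        refine ⟨by simpa using he, fun v hv => hg v (by omega), ?_⟩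
        have : M < (S.yes F (so u.1) u.2 i).card := by simpa using hc
        omega
    · simp [hg]
  · intro z hz J hJ hne
    obtain ⟨hXy, _, hXi⟩ := hX z hz
    have hz' := hz
    simp only [bad, Finset.mem_filter, Finset.mem_univ, true_and] at hz'
    obtain ⟨hzf, hg, _⟩ := hz'
    have hgu : S.good P (i + 1) (so (S.flip i J z).1) (S.flip i J z).2 := by
      intro v hv
      have : S.sens (so (S.flip i J z).1) (S.flip i J z).2 v = S.sens (so z.1) z.2 v := by
        unfold sens
        congr 1
        funext x
        have := S.flip_delta (J := J) (z := z) (x := x) hv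
        rw [show (S.flip i J z).1 = z.1 from rfl, this]
      rw [this]
      exact hg v hv
    by_cases he : ev F (so (S.flip i J z).1) (S.flip i J z).2 = true
    · simp only [hgu, he, if_true]
      obtain ⟨htF, hts⟩ := hU _ he
      have hnt : ¬ Sat (so z.1) z.2 (U (S.flip i J z)) := ev_false.mp hzf _ htF
      unfold Sat at hnt
      push Not at hnt
      obtain ⟨q, hq, hqn⟩ := hnt
      have hqs := hts q hq
      rcases hq1 : q.1 with p | v
      · exfalso
        apply hqn
        rw [← hqs, hq1]
        rfl
      · rw [hq1, val_inr] at hqn hqs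
        rw [← hqs] at hqn
        have hlv : S.lv v = i + 1 := by
          by_contra hc
          exact hqn (S.flip_ne hc).symm
        rw [S.flip_eq hlv] at hqn
        have hpar : par J (fun j => S.delta (so z.1) z.2 j v) = true := by
          by_contra hc
          rw [Bool.not_eq_true] at hc
          rw [hc] at hqn
          simp at hqn
        obtain ⟨j, hj, hjd⟩ := par_true hpar
        refine ⟨j, hj, ?_⟩
        simp only [near, Finset.mem_filter, Finset.mem_univ, true_and]
        refine ⟨q, hq, v, hq1, hlv, ?_⟩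
        rw [show (S.flip i J z).1 = z.1 from rfl, S.flip_delta hlv.le]
        exact hjd
    · simp only [hgu, he, if_true]
      obtain ⟨j, hj⟩ := hne
      refine ⟨j, hj, ?_⟩
      have hjy := hXy (hJ hj)
      simp only [yes, Finset.mem_filter, Finset.mem_univ, true_and] at hjy
      obtain ⟨htF, hts⟩ := hT z j hjy
      have hmem : j ∈ S.yes F (so (S.flip i J z).1) (S.flip i J z).2 i := by
        simp only [yes, Finset.mem_filter, Finset.mem_univ, true_and]
        rw [ev_true]
        refine ⟨T z j, htF, (Sat_congr ?_).mp hts⟩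
        intro q hq
        rcases hq1 : q.1 with p | v
        · rfl
        · rw [val_inr, val_inr]
          rw [show (S.flip i J z).1 = z.1 from rfl]
          rcases lt_trichotomy (S.lv v) (i + 1) with h | h | h
          · rw [S.fl_succ_ne (by omega)]
            exact S.fl_congr (fun v' hv' => (S.flip_ne (by omega)).symm) v (by omega)
          · rw [S.fl_delta h.le, S.fl_of_lt (Or.inl (by omega)), S.flip_eq h]
            rw [par_single hj]
            intro j' hj' hne'
            by_contra hc
            rw [Bool.not_eq_false] at hc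
            apply hXi j (hJ hj) j' (hJ hj') (fun h => hne' h.symm)
            simp only [near, Finset.mem_filter, Finset.mem_univ, true_and]
            exact ⟨q, hq, v, hq1, h, hc⟩
          · rw [S.fl_of_lt (Or.inl (by omega)), S.fl_of_lt (Or.inl (by omega)),
              S.flip_ne (by omega)]
      simpa using hmem
  · intro z hz
    exact (hX z hz).2.1

end Sys

end Pool.Agent.H77.NB
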